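import Mathlib

/-!
Moments and the probability of a zero kernel; the infinite product `(1 - 1/2) (1 - 1/4) ⋯`.
-/

set_option autoImplicit false

open Finset Filter

namespace Pool.Agent.R906.QK

theorem c2_main (c : ℝ) (hc : c = ∏' i : ℕ, (1 - (1 / 2 : ℝ) ^ (i + 1))) :
    Tendsto (fun n : ℕ => ∏ i ∈ range n, (1 - (1 / 2 : ℝ) ^ (i + 1))) atTop (nhds c) ∧
    0 < c ∧ c < 1 ∧ 0.288 < c ∧ c < 0.289 := by
  set P : ℕ → ℝ := fun n => ∏ i ∈ range n, (1 - (1 / 2 : ℝ) ^ (i + 1)) with hP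
  have hpow : ∀ i : ℕ, 0 < (1 / 2 : ℝ) ^ i ∧ (1 / 2 : ℝ) ^ i ≤ 1 := fun i =>
    ⟨by positivity, pow_le_one₀ (by norm_num) (by norm_num)⟩
  have he : ∀ i : ℕ, (1 / 2 : ℝ) ^ (i + 1) = 1 / 2 * (1 / 2 : ℝ) ^ i := by
    intro i
    rw [pow_succ]
    ring
  have hsum : Summable (fun i : ℕ => (1 / 2 : ℝ) ^ (i + 1)) := by
    simp_rw [he]
    exact (summable_geometric_of_lt_one (by norm_num) (by norm_num)).mul_left _
  have hmul : Multipliable (fun i : ℕ => 1 - (1 / 2 : ℝ) ^ (i + 1)) := by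
    have := multipliable_one_add_of_summable (f := fun i : ℕ => -(1 / 2 : ℝ) ^ (i + 1))
      (by simpa [norm_neg, norm_pow] using hsum)
    simpa [sub_eq_add_neg] using this
  have hlim : Tendsto P atTop (nhds c) := by
    rw [hc]; exact hmul.hasProd.tendsto_prod_nat
  have h0 : ∀ n, 0 ≤ P n ∧ P n ≤ 1 := by
    intro n
    refine ⟨Finset.prod_nonneg fun i _ => ?_, Finset.prod_le_one (fun i _ => ?_) fun i _ => ?_⟩
    · rw [he]; linarith [(hpow i).2]
    · rw [he]; linarith [(hpow i).2]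
    · rw [he]; linarith [(hpow i).1]
  have hsucc : ∀ n, P (n + 1) = P n * (1 - 1 / 2 * (1 / 2 : ℝ) ^ n) := by
    intro n; simp only [hP]; rw [Finset.prod_range_succ, he]
  have hanti : Antitone P := by
    apply antitone_nat_of_succ_le
    intro n
    rw [hsucc]
    nlinarith [(h0 n).1, (hpow n).1]
  have hmono : Monotone (fun n => P n - (1 / 2 : ℝ) ^ n) := by
    apply monotone_nat_of_le_succ
    intro n
    rw [hsucc]
    have e : (1 / 2 : ℝ) ^ (n + 1) = 1 / 2 * (1 / 2 : ℝ) ^ n := by rw [pow_succ]; ring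
    rw [e]
    have h1 := (hpow n).1
    have h2 := (h0 n).2
    nlinarith [mul_nonneg h1.le (sub_nonneg.mpr h2)]
  have hlim2 : Tendsto (fun n => P n - (1 / 2 : ℝ) ^ n) atTop (nhds c) := by
    have h1 : Tendsto (fun n : ℕ => (1 / 2 : ℝ) ^ n) atTop (nhds 0) :=
      tendsto_pow_atTop_nhds_zero_of_lt_one (by norm_num) (by norm_num)
    have := hlim.sub h1
    simpa using this
  have hle : ∀ n, c ≤ P n := fun n => hanti.le_of_tendsto hlim n
  have hge : ∀ n, P n - (1 / 2 : ℝ) ^ n ≤ c := fun n => hmono.ge_of_tendsto hlim2 n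
  have hlo : (0.288 : ℝ) < c := by
    refine lt_of_lt_of_le ?_ (hge 12)
    simp only [hP, Finset.prod_range_succ, Finset.prod_range_zero]
    norm_num
  have hup : c < (0.289 : ℝ) := by
    refine (hle 12).trans_lt ?_
    simp only [hP, Finset.prod_range_succ, Finset.prod_range_zero]
    norm_num
  exact ⟨hlim, by linarith, by linarith, hlo, hup⟩

/-- `1 / ((2 - 1) (4 - 1) ⋯ (2 ^ m - 1))` -/
noncomputable def aa (m : ℕ) : ℝ := ∏ i ∈ range m, ((2 : ℝ) ^ (i + 1) - 1)⁻¹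

theorem two_pow_sub_pos (i : ℕ) : (0 : ℝ) < 2 ^ (i + 1) - 1 := by
  have : (1 : ℝ) < 2 ^ (i + 1) := one_lt_pow₀ (by norm_num) (by omega)
  linarith

theorem aa_nonneg (m : ℕ) : 0 ≤ aa m :=
  Finset.prod_nonneg fun i _ => (inv_pos.2 (two_pow_sub_pos i)).le

theorem aa_succ (m : ℕ) : aa (m + 1) * ((2 : ℝ) ^ (m + 1) - 1) = aa m := by
  unfold aa
  rw [Finset.prod_range_succ, mul_assoc, inv_mul_cancel₀ (two_pow_sub_pos m).ne', mul_one]

theorem aa_le (m : ℕ) : aa m ≤ 2 * (1 / 2 : ℝ) ^ m := by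
  induction m with
  | zero => simp [aa]
  | succ m ih =>
    rcases Nat.eq_zero_or_pos m with rfl | hm
    · norm_num [aa]
    · have h1 := aa_succ m
      have h2 := aa_nonneg (m + 1)
      have h3 : (4 : ℝ) ≤ 2 ^ (m + 1) := by
        calc (4 : ℝ) = 2 ^ 2 := by norm_num
          _ ≤ 2 ^ (m + 1) := pow_le_pow_right₀ (by norm_num) (by omega)
      have h4 : aa (m + 1) * 2 ≤ aa m := by
        rw [← h1]; exact mul_le_mul_of_nonneg_left (by linarith) h2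
      rw [pow_succ]
      linarith

/-- the alternating sum of the moments of order at most `M` -/
theorem telesc (M : ℕ) (x : ℝ) :
    ∑ m ∈ range (M + 1), (-1 : ℝ) ^ m * (aa m * ∏ i ∈ range m, (x - 2 ^ i)) =
      (-1) ^ M * (aa M * ∏ i ∈ range M, (x - 2 ^ (i + 1))) := by
  induction M with
  | zero => simp
  | succ M ih =>
    rw [Finset.sum_range_succ, ih, Finset.prod_range_succ' (fun i => x - (2 : ℝ) ^ i) M,
      Finset.prod_range_succ (fun i => x - (2 : ℝ) ^ (i + 1)) M]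
    have h1 := aa_succ M
    rw [← h1]
    ring

/-- the truncated power series -/
noncomputable def FM (M : ℕ) (y : ℝ) : ℝ := ∑ m ∈ range (M + 1), (-1 : ℝ) ^ m * aa m * y ^ m

theorem FM_two (M : ℕ) (y : ℝ) :
    FM M (2 * y) = (1 - y) * FM M y + (-1) ^ M * aa M * y ^ (M + 1) := by
  induction M with
  | zero => simp [FM]; ring
  | succ M ih =>
    have e1 : FM (M + 1) (2 * y) = FM M (2 * y) + (-1 : ℝ) ^ (M + 1) * aa (M + 1) * (2 * y) ^ (M + 1) := by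
      unfold FM; rw [Finset.sum_range_succ _ (M + 1)]
    have e2 : FM (M + 1) y = FM M y + (-1 : ℝ) ^ (M + 1) * aa (M + 1) * y ^ (M + 1) := by
      unfold FM; rw [Finset.sum_range_succ _ (M + 1)]
    rw [e1, ih, e2, ← aa_succ M, mul_pow]
    ring

theorem FM_bound (M : ℕ) (n : ℕ) :
    |FM M 1 - (∏ i ∈ range n, (1 - (1 / 2 : ℝ) ^ (i + 1))) * FM M ((1 / 2) ^ n)| ≤
      aa M * (1 - (1 / 2) ^ n) := by
  induction n with
  | zero => simp
  | succ n ih =>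
    have e1 : FM M ((1 / 2 : ℝ) ^ n) = (1 - (1 / 2 : ℝ) ^ (n + 1)) * FM M ((1 / 2) ^ (n + 1)) +
        (-1) ^ M * aa M * ((1 / 2 : ℝ) ^ (n + 1)) ^ (M + 1) := by
      rw [← FM_two]
      congr 1
      rw [pow_succ]; ring
    have hP : 0 ≤ (∏ i ∈ range n, (1 - (1 / 2 : ℝ) ^ (i + 1))) ∧
        (∏ i ∈ range n, (1 - (1 / 2 : ℝ) ^ (i + 1))) ≤ 1 := by
      have h1 : ∀ i : ℕ, 0 ≤ (1 / 2 : ℝ) ^ (i + 1) ∧ (1 / 2 : ℝ) ^ (i + 1) ≤ 1 := fun i =>
        ⟨by positivity, pow_le_one₀ (by norm_num) (by norm_num)⟩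
      refine ⟨Finset.prod_nonneg fun i _ => by linarith [(h1 i).2],
        Finset.prod_le_one (fun i _ => by linarith [(h1 i).2]) fun i _ => by linarith [(h1 i).1]⟩
    rw [Finset.prod_range_succ]
    have e2 : FM M 1 - (∏ i ∈ range n, (1 - (1 / 2 : ℝ) ^ (i + 1))) * (1 - (1 / 2 : ℝ) ^ (n + 1)) *
        FM M ((1 / 2) ^ (n + 1)) =
        (FM M 1 - (∏ i ∈ range n, (1 - (1 / 2 : ℝ) ^ (i + 1))) * FM M ((1 / 2) ^ n)) +
        (∏ i ∈ range n, (1 - (1 / 2 : ℝ) ^ (i + 1))) *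
          ((-1) ^ M * aa M * ((1 / 2 : ℝ) ^ (n + 1)) ^ (M + 1)) := by
      rw [e1]; ring
    rw [e2]
    refine (abs_add_le _ _).trans ?_
    have h3 : |(∏ i ∈ range n, (1 - (1 / 2 : ℝ) ^ (i + 1))) *
          ((-1) ^ M * aa M * ((1 / 2 : ℝ) ^ (n + 1)) ^ (M + 1))| ≤ aa M * (1 / 2) ^ (n + 1) := by
      rw [abs_mul, abs_mul, abs_mul, abs_pow, abs_neg, abs_one, one_pow, one_mul,
        abs_of_nonneg hP.1, abs_of_nonneg (aa_nonneg M), abs_of_nonneg (by positivity)]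
      have h4 : ((1 / 2 : ℝ) ^ (n + 1)) ^ (M + 1) ≤ (1 / 2) ^ (n + 1) := by
        have h5 : (0 : ℝ) ≤ (1 / 2) ^ (n + 1) := by positivity
        have h6 : (1 / 2 : ℝ) ^ (n + 1) ≤ 1 := pow_le_one₀ (by norm_num) (by norm_num)
        calc ((1 / 2 : ℝ) ^ (n + 1)) ^ (M + 1) ≤ ((1 / 2 : ℝ) ^ (n + 1)) ^ 1 :=
              pow_le_pow_of_le_one h5 h6 (by omega)
          _ = _ := pow_one _
      calc (∏ i ∈ range n, (1 - (1 / 2 : ℝ) ^ (i + 1))) * (aa M * ((1 / 2 : ℝ) ^ (n + 1)) ^ (M + 1))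
          ≤ 1 * (aa M * (1 / 2 : ℝ) ^ (n + 1)) := by
            apply mul_le_mul hP.2 (mul_le_mul_of_nonneg_left h4 (aa_nonneg M))
              (mul_nonneg (aa_nonneg M) (by positivity)) zero_le_one
        _ = _ := one_mul _
    have h7 : (1 / 2 : ℝ) ^ (n + 1) = (1 / 2) ^ n / 2 := by rw [pow_succ]; ring
    rw [h7] at h3 ⊢
    linarith

theorem sum_close (c : ℝ) (hc : c = ∏' i : ℕ, (1 - (1 / 2 : ℝ) ^ (i + 1))) (M : ℕ) :
    |∑ m ∈ range (M + 1), (-1 : ℝ) ^ m * aa m - c| ≤ 2 * (1 / 2 : ℝ) ^ M := by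
  have h1 := (c2_main c hc).1
  have hF0 : FM M 0 = 1 := by
    unfold FM
    rw [Finset.sum_range_succ']
    simp [aa]
  have hF1 : FM M 1 = ∑ m ∈ range (M + 1), (-1 : ℝ) ^ m * aa m := by
    unfold FM; simp
  have hcont : Continuous (FM M) := by
    unfold FM; fun_prop
  have h2 : Tendsto (fun n : ℕ => FM M ((1 / 2 : ℝ) ^ n)) atTop (nhds 1) := by
    have h3 : Tendsto (fun n : ℕ => (1 / 2 : ℝ) ^ n) atTop (nhds 0) :=
      tendsto_pow_atTop_nhds_zero_of_lt_one (by norm_num) (by norm_num)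
    have h4 := (hcont.tendsto 0).comp h3
    rw [hF0] at h4
    exact h4
  have h3 := (h1.mul h2)
  rw [mul_one] at h3
  have h4 : Tendsto (fun n : ℕ => |FM M 1 - (∏ i ∈ range n, (1 - (1 / 2 : ℝ) ^ (i + 1))) *
      FM M ((1 / 2) ^ n)|) atTop (nhds |FM M 1 - c|) := (tendsto_const_nhds.sub h3).abs
  rw [← hF1]
  refine le_of_tendsto h4 (Eventually.of_forall fun n => ?_)
  refine (FM_bound M n).trans ?_
  have h5 : (0 : ℝ) ≤ (1 / 2) ^ n := by positivity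
  have h6 := aa_nonneg M
  have h7 := aa_le M
  nlinarith [mul_nonneg h6 h5]

theorem mom_main (c : ℝ) (hc : c = ∏' i : ℕ, (1 - (1 / 2 : ℝ) ^ (i + 1))) (ε : ℝ) (hε : 0 < ε) :
    ∃ (M : ℕ) (δ : ℝ), 0 < δ ∧ ∀ (Ω : Type) [Fintype Ω] [Nonempty Ω] (r : Ω → ℕ),
      (∀ m ≤ M, |(∑ ω, ∏ i ∈ range m, ((2 : ℝ) ^ r ω - 2 ^ i)) / Fintype.card Ω - 1| ≤ δ) →
      |((univ.filter fun ω => r ω = 0).card : ℝ) / Fintype.card Ω - c| ≤ ε := by
  obtain ⟨K, hK⟩ := exists_pow_lt_of_lt_one (show 0 < ε / 4 by positivity)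
    (show (1 / 2 : ℝ) < 1 by norm_num)
  have hKpow : ∀ T, K ≤ T → 2 * (1 / 2 : ℝ) ^ T ≤ ε / 2 := by
    intro T hT
    have : (1 / 2 : ℝ) ^ T ≤ (1 / 2) ^ K := pow_le_pow_of_le_one (by norm_num) (by norm_num) hT
    linarith
  obtain ⟨A, hA⟩ : ∃ A, A = ∑ m ∈ range (2 * K + 1 + 1), aa m := ⟨_, rfl⟩
  have hA0 : 0 ≤ A := by rw [hA]; exact Finset.sum_nonneg fun m _ => aa_nonneg m
  refine ⟨2 * K + 1, ε / 2 / (A + 1), by positivity, ?_⟩
  intro Ω _ _ r hm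
  have hN : (0 : ℝ) < Fintype.card Ω := by exact_mod_cast Fintype.card_pos
  obtain ⟨E, hE⟩ : ∃ E : ℕ → ℝ, ∀ m, E m =
    (∑ ω, ∏ i ∈ range m, ((2 : ℝ) ^ r ω - 2 ^ i)) / Fintype.card Ω := ⟨_, fun _ => rfl⟩
  have hEm : ∀ m ≤ 2 * K + 1, |E m - 1| ≤ ε / 2 / (A + 1) := by
    intro m h; rw [hE]; exact hm m h
  have hδA : ε / 2 / (A + 1) * A ≤ ε / 2 := by
    rw [div_mul_eq_mul_div, div_le_iff₀ (by positivity)]
    nlinarith
  -- the alternating sums
  have hW : ∀ T ≤ 2 * K + 1, |∑ m ∈ range (T + 1), (-1 : ℝ) ^ m * aa m * E m -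
      ∑ m ∈ range (T + 1), (-1 : ℝ) ^ m * aa m| ≤ ε / 2 := by
    intro T hT
    rw [← Finset.sum_sub_distrib]
    refine (Finset.abs_sum_le_sum_abs _ _).trans ?_
    have h1 : ∀ m ∈ range (T + 1), |(-1 : ℝ) ^ m * aa m * E m - (-1 : ℝ) ^ m * aa m| ≤
        aa m * (ε / 2 / (A + 1)) := by
      intro m hmT
      rw [Finset.mem_range] at hmT
      have h2 : (-1 : ℝ) ^ m * aa m * E m - (-1 : ℝ) ^ m * aa m =
          (-1 : ℝ) ^ m * aa m * (E m - 1) := by ring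
      rw [h2, abs_mul, abs_mul, abs_pow, abs_neg, abs_one, one_pow, one_mul,
        abs_of_nonneg (aa_nonneg m)]
      exact mul_le_mul_of_nonneg_left (hEm m (by omega)) (aa_nonneg m)
    refine (Finset.sum_le_sum h1).trans ?_
    rw [← Finset.sum_mul]
    have h3 : ∑ m ∈ range (T + 1), aa m ≤ A := by
      rw [hA]
      apply Finset.sum_le_sum_of_subset_of_nonneg
      · intro m hmT
        rw [Finset.mem_range] at hmT ⊢
        omega
      · intro m _ _; exact aa_nonneg m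
    calc (∑ m ∈ range (T + 1), aa m) * (ε / 2 / (A + 1)) ≤ A * (ε / 2 / (A + 1)) :=
          mul_le_mul_of_nonneg_right h3 (by positivity)
      _ ≤ ε / 2 := by rw [mul_comm]; exact hδA
  have hWsum : ∀ T, ∑ m ∈ range (T + 1), (-1 : ℝ) ^ m * aa m * E m =
      (∑ ω, (-1 : ℝ) ^ T * (aa T * ∏ i ∈ range T, ((2 : ℝ) ^ r ω - 2 ^ (i + 1)))) /
        Fintype.card Ω := by
    intro T
    rw [Finset.sum_congr rfl fun ω _ => (telesc T ((2 : ℝ) ^ r ω)).symm, Finset.sum_comm,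
      Finset.sum_div]
    apply Finset.sum_congr rfl
    intro m _
    rw [hE, ← Finset.mul_sum, ← Finset.mul_sum]
    ring
  have hterm0 : ∀ T (x : ℝ), x = 1 →
      (-1 : ℝ) ^ T * (aa T * ∏ i ∈ range T, (x - 2 ^ (i + 1))) = 1 := by
    intro T x hx
    rw [← telesc, Finset.sum_range_succ']
    have h1 : ∑ k ∈ range T, (-1 : ℝ) ^ (k + 1) * (aa (k + 1) * ∏ i ∈ range (k + 1), (x - 2 ^ i))
        = 0 := by
      apply Finset.sum_eq_zero
      intro k _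
      rw [Finset.prod_range_succ' (fun i => x - (2 : ℝ) ^ i) k, hx]
      ring
    rw [h1]
    simp [aa]
  have htermp : ∀ T (ρ : ℕ), ρ ≠ 0 →
      0 ≤ aa T * ∏ i ∈ range T, ((2 : ℝ) ^ ρ - 2 ^ (i + 1)) := by
    intro T ρ hρ
    apply mul_nonneg (aa_nonneg T)
    by_cases hT : ρ ≤ T
    · rw [Finset.prod_eq_zero (i := ρ - 1)]
      · rw [Finset.mem_range]; omega
      · rw [show ρ - 1 + 1 = ρ by omega, sub_self]
    · apply Finset.prod_nonneg
      intro i hi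
      rw [Finset.mem_range] at hi
      have : (2 : ℝ) ^ (i + 1) ≤ 2 ^ ρ := pow_le_pow_right₀ (by norm_num) (by omega)
      linarith
  have hcard : ((univ.filter fun ω => r ω = 0).card : ℝ) = ∑ ω, if r ω = 0 then (1 : ℝ) else 0 := by
    rw [← Finset.sum_filter, Finset.sum_const, nsmul_eq_mul, mul_one]
  rw [hcard]
  have hup : (∑ ω, if r ω = 0 then (1 : ℝ) else 0) / Fintype.card Ω ≤
      ∑ m ∈ range (2 * K + 1), (-1 : ℝ) ^ m * aa m * E m := by
    rw [hWsum (2 * K)]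
    apply div_le_div_of_nonneg_right _ hN.le
    apply Finset.sum_le_sum
    intro ω _
    split_ifs with h
    · rw [hterm0 (2 * K) _ (by rw [h, pow_zero])]
    · rw [pow_mul]
      norm_num
      have := htermp (2 * K) (r ω) h
      exact this
  have hlo : ∑ m ∈ range (2 * K + 1 + 1), (-1 : ℝ) ^ m * aa m * E m ≤
      (∑ ω, if r ω = 0 then (1 : ℝ) else 0) / Fintype.card Ω := by
    rw [hWsum (2 * K + 1)]
    apply div_le_div_of_nonneg_right _ hN.le
    apply Finset.sum_le_sum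
    intro ω _
    split_ifs with h
    · rw [hterm0 (2 * K + 1) _ (by rw [h, pow_zero])]
    · rw [pow_succ, pow_mul]
      norm_num
      have := htermp (2 * K + 1) (r ω) h
      exact this
  have h1 := hW (2 * K) (by omega)
  have h2 := hW (2 * K + 1) le_rfl
  have h3 := sum_close c hc (2 * K)
  have h4 := sum_close c hc (2 * K + 1)
  have h5 := hKpow (2 * K) (by omega)
  have h6 := hKpow (2 * K + 1) (by omega)
  rw [abs_le] at h1 h2 h3 h4 ⊢
  constructor <;> linarith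

end Pool.Agent.R906.QK
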